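import Mathlib

set_option autoImplicit false

namespace Pool.Agent.H.MP_155e99_co

open Finset Matrix

def Tern (x : ℤ) : Prop := x = 0 ∨ x = 1 ∨ x = -1

lemma Tern.neg {x : ℤ} (h : Tern x) : Tern (-x) := by
  rcases h with h | h | h <;> simp [Tern, h]

lemma tern_pm {σ : Type} [DecidableEq σ] {S : Matrix σ σ ℤ} (hs : Sᵀ = -S)
    (ht : ∀ i j, Tern (S i j)) (i j : σ) :
    Tern ((S + 1 : Matrix σ σ ℤ) i j) ∧ Tern ((S - 1 : Matrix σ σ ℤ) i j) := by
  by_cases h : i = j
  · subst h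
    have : S i i = 0 := by
      have := congrFun (congrFun hs i) i
      simp only [transpose_apply, neg_apply] at this
      omega
    simp [Tern, this]
  · simpa [one_apply_ne h] using ht i j

/-- skew weighing matrices of order `2 ^ s` and every weight -/
lemma skew (s : ℕ) : ∀ k : ℕ, k < 2 ^ s →
    ∃ (σ : Type) (_ : Fintype σ) (_ : DecidableEq σ) (S : Matrix σ σ ℤ),
      Fintype.card σ = 2 ^ s ∧ Sᵀ = -S ∧ S * S = (-(k : ℤ)) • (1 : Matrix σ σ ℤ) ∧
      ∀ i j, Tern (S i j) := by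
  induction s with
  | zero =>
    intro k hk
    obtain rfl : k = 0 := by omega
    exact ⟨Unit, inferInstance, inferInstance, 0, by simp, by simp, by simp,
      fun _ _ => Or.inl rfl⟩
  | succ s ih =>
    intro k hk
    obtain ⟨σ, _, _, S, hc, hs, hm, ht⟩ := ih (k / 2) (by omega)
    rcases Nat.mod_two_eq_zero_or_one k with h | h
    · have e : (k : ℤ) = 2 * ((k / 2 : ℕ) : ℤ) := by omega
      refine ⟨σ ⊕ σ, inferInstance, inferInstance, fromBlocks S S S (-S), ?_, ?_, ?_, ?_⟩
      · simp [hc]; ring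
      · simp [fromBlocks_transpose, hs, fromBlocks_neg]
      · rw [fromBlocks_multiply, ← fromBlocks_one, fromBlocks_smul, e]
        congr 1 <;> simp only [Matrix.mul_neg, Matrix.neg_mul, hm] <;> module
      · rintro (i | i) (j | j)
        · exact ht i j
        · exact ht i j
        · exact ht i j
        · exact (ht i j).neg
    · have e : (k : ℤ) = 2 * ((k / 2 : ℕ) : ℤ) + 1 := by omega
      refine ⟨σ ⊕ σ, inferInstance, inferInstance, fromBlocks S (S + 1) (S - 1) (-S),
        ?_, ?_, ?_, ?_⟩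
      · simp [hc]; ring
      · rw [fromBlocks_transpose, fromBlocks_neg]
        congr 1
        · simp [hs, sub_eq_add_neg, add_comm]
        · simp [hs, sub_eq_add_neg, add_comm]
        · simp [hs]
      · rw [fromBlocks_multiply, ← fromBlocks_one, fromBlocks_smul, e]
        congr 1 <;> simp only [Matrix.mul_neg, Matrix.neg_mul, Matrix.mul_add, Matrix.add_mul,
          Matrix.mul_sub, Matrix.sub_mul, Matrix.mul_one, Matrix.one_mul, hm] <;> module
      · rintro (i | i) (j | j)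
        · exact ht i j
        · exact (tern_pm hs ht i j).1
        · exact (tern_pm hs ht i j).2
        · exact (ht i j).neg

lemma flip_frame {κ : Type} [Fintype κ] [DecidableEq κ] (F : Matrix κ κ ℤ) (n : ℤ) (hn : n ≠ 0)
    (h : F * Fᵀ = n • (1 : Matrix κ κ ℤ)) : Fᵀ * F = n • (1 : Matrix κ κ ℤ) := by
  have hq : (n : ℚ) ≠ 0 := by exact_mod_cast hn
  obtain ⟨G, hG⟩ : ∃ G : Matrix κ κ ℚ, ∀ i j, G i j = F i j := ⟨fun i j => F i j, fun _ _ => rfl⟩
  have h1 : G * ((n : ℚ)⁻¹ • Gᵀ) = 1 := by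
    ext i j
    have := congrFun (congrFun h i) j
    simp only [mul_apply, transpose_apply, Matrix.smul_apply, smul_eq_mul, one_apply, hG] at this ⊢
    have h2 : (∑ x, (F i x : ℚ) * F j x) = n * if i = j then 1 else 0 := by
      split_ifs at this ⊢ <;> exact_mod_cast this
    calc ∑ x, (F i x : ℚ) * ((n : ℚ)⁻¹ * F j x) = (n : ℚ)⁻¹ * ∑ x, (F i x : ℚ) * F j x := by
          rw [mul_sum]; exact sum_congr rfl fun _ _ => by ring
      _ = _ := by rw [h2]; field_simp
  have h3 := mul_eq_one_comm.1 h1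
  ext i j
  have := congrFun (congrFun h3 i) j
  simp only [mul_apply, transpose_apply, Matrix.smul_apply, smul_eq_mul, one_apply, hG] at this ⊢
  have h4 : (∑ x, (F x i : ℚ) * F x j) = n * if i = j then 1 else 0 := by
    rw [← this, mul_sum]
    exact sum_congr rfl fun _ _ => by field_simp
  split_ifs at h4 ⊢ <;> exact_mod_cast h4

/-- an integer matrix of order `r m` with orthogonal rows of norm `r m`, one of them all ones -/
theorem frame (r m s e : ℕ) (H Q : Matrix (Fin (r + 1)) (Fin (r + 1)) ℤ)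
    (hH : H * Hᵀ = ((r + 1 : ℕ) : ℤ) • (1 : Matrix _ _ ℤ)) (hH0 : ∀ a, H 0 a = 1)
    (hQ : Q * Qᵀ = (m : ℤ) • (1 : Matrix _ _ ℤ)) (hm : 1 ≤ m) (hms : m ≤ 2 ^ s)
    (he : 2 ^ s + e * (r + 1) = (r + 1) * m) :
    ∃ (F : Matrix (Fin (r + 1) × Fin m) (Fin (r + 1) × Fin m) ℤ) (i0 : Fin (r + 1) × Fin m),
      F * Fᵀ = (((r + 1) * m : ℕ) : ℤ) • (1 : Matrix _ _ ℤ) ∧ ∀ j, F i0 j = 1 := by
  obtain ⟨σ, _, _, S, hc, hs, hS, ht⟩ := skew s (m - 1) (by omega)
  have hm' : ((m - 1 : ℕ) : ℤ) = m - 1 := by omega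
  have hW : (S + 1) * (S + 1)ᵀ = (m : ℤ) • (1 : Matrix σ σ ℤ) := by
    rw [transpose_add, hs, transpose_one]
    simp only [Matrix.mul_neg, Matrix.mul_add, Matrix.add_mul, Matrix.mul_one, Matrix.one_mul, hS,
      hm']
    module
  obtain ⟨a0⟩ : Nonempty σ := Fintype.card_pos_iff.1 (by rw [hc]; positivity)
  obtain ⟨U0, i1, hU0, hT0⟩ : ∃ (U : Matrix (σ ⊕ (Fin (r + 1) × Fin e))
      (σ ⊕ (Fin (r + 1) × Fin e)) ℤ) (i1 : σ ⊕ (Fin (r + 1) × Fin e)),
      U * Uᵀ = (m : ℤ) • (1 : Matrix _ _ ℤ) ∧ ∀ x, Tern (U i1 x) := by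
    refine ⟨fromBlocks (S + 1) 0 0 (blockDiagonal fun _ => Q), Sum.inl a0, ?_, ?_⟩
    · rw [fromBlocks_transpose, fromBlocks_multiply, ← fromBlocks_one, fromBlocks_smul,
        blockDiagonal_transpose, ← blockDiagonal_mul, hW]
      simp only [hQ]
      have : (blockDiagonal fun _ : Fin e => (m : ℤ) • (1 : Matrix (Fin (r + 1)) (Fin (r + 1)) ℤ)) =
          (m : ℤ) • (1 : Matrix _ _ ℤ) := by
        rw [← blockDiagonal_one, ← blockDiagonal_smul]; rfl
      rw [this]
      simp
    · rintro (x | x)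
      · exact (tern_pm hs ht a0 x).1
      · exact Or.inl rfl
  obtain ⟨E0⟩ : Nonempty ((Fin (r + 1) × Fin m) ≃ (σ ⊕ (Fin (r + 1) × Fin e))) :=
    Fintype.card_eq.1 (by simp [hc, ← he]; ring)
  have hcard : (univ.filter fun x : Fin (r + 1) × Fin m => x.1 = 0).card =
      (univ.filter fun x : Fin (r + 1) × Fin m => U0 i1 (E0 x) ≠ 0).card := by
    have h1 : ((univ.filter fun x : Fin (r + 1) × Fin m => U0 i1 (E0 x) ≠ 0).card : ℤ) = m := by
      have := congrFun (congrFun hU0 i1) i1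
      simp only [mul_apply, transpose_apply, Matrix.smul_apply, one_apply_eq, smul_eq_mul, mul_one] at this
      rw [← this, ← E0.sum_comp, card_filter]
      push_cast
      refine sum_congr rfl fun x _ => ?_
      rcases hT0 (E0 x) with h | h | h <;> simp [h]
    have h2 : (univ.filter fun x : Fin (r + 1) × Fin m => x.1 = 0).card = m := by
      rw [card_filter, Fintype.sum_prod_type]
      simp [Fin.sum_univ_succ]
    omega
  obtain ⟨π, hπ⟩ := Equiv.Perm.exists_map_finset_eq _ _ hcard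
  have hπ' : ∀ x : Fin (r + 1) × Fin m, x.1 = 0 ↔ U0 i1 (E0 (π x)) ≠ 0 := by
    intro x
    have : π x ∈ (univ.filter fun x : Fin (r + 1) × Fin m => x.1 = 0).map π.toEmbedding ↔
        π x ∈ (univ.filter fun x : Fin (r + 1) × Fin m => U0 i1 (E0 x) ≠ 0) := by rw [hπ]
    simpa using this
  obtain ⟨U, i0, hU, hT, hsupp⟩ : ∃ (U : Matrix (Fin (r + 1) × Fin m) (Fin (r + 1) × Fin m) ℤ)
      (i0 : Fin (r + 1) × Fin m), U * Uᵀ = (m : ℤ) • (1 : Matrix _ _ ℤ) ∧ (∀ x, Tern (U i0 x)) ∧
      ∀ x : Fin (r + 1) × Fin m, x.1 = 0 ↔ U i0 x ≠ 0 := by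
    refine ⟨U0.submatrix (π.trans E0) (π.trans E0), (π.trans E0).symm i1, ?_, ?_, ?_⟩
    · rw [transpose_submatrix, submatrix_mul_equiv, hU0, submatrix_smul]
      simp only [Pi.smul_apply, submatrix_one_equiv]
    · intro x
      simpa using hT0 _
    · intro x
      simpa using hπ' x
  obtain ⟨ε, hε⟩ : ∃ ε : Fin (r + 1) × Fin m → ℤ, ∀ x, ε x = if U i0 x = 0 then 1 else U i0 x :=
    ⟨_, fun _ => rfl⟩
  have hε2 : ∀ x, ε x * ε x = 1 := by
    intro x
    rw [hε]
    rcases hT x with h | h | h <;> simp [h]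
  obtain ⟨T, hTd⟩ : ∃ T : Matrix (Fin (r + 1) × Fin m) (Fin (r + 1) × Fin m) ℤ,
      ∀ x y, T x y = if x.2 = y.2 then ε x * H x.1 y.1 else 0 :=
    ⟨fun x y => if x.2 = y.2 then ε x * H x.1 y.1 else 0, fun _ _ => rfl⟩
  have hTT : T * Tᵀ = ((r + 1 : ℕ) : ℤ) • (1 : Matrix _ _ ℤ) := by
    ext ⟨a, b⟩ ⟨a', b'⟩
    have := congrFun (congrFun hH a) a'
    simp only [mul_apply, transpose_apply, Matrix.smul_apply, smul_eq_mul, one_apply, hTd,
      Fintype.sum_prod_type] at this ⊢
    by_cases hb : b = b'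
    · subst hb
      have e1 : ∀ x : Fin (r + 1), (∑ y : Fin m, (if b = y then ε (a, b) * H a x else 0) *
          if b = y then ε (a', b) * H a' x else 0) = ε (a, b) * ε (a', b) * (H a x * H a' x) := by
        intro x
        rw [sum_eq_single b]
        · simp only [if_true]; ring
        · intro y _ hy
          simp [hy.symm]
        · simp
      simp only [e1]
      rw [← mul_sum, this]
      by_cases ha : a = a'
      · subst ha
        simp [hε2]
      · simp [ha]
    · have e1 : ∀ (x : Fin (r + 1)) (y : Fin m), ((if b = y then ε (a, b) * H a x else 0) *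
          if b' = y then ε (a', b') * H a' x else 0) = 0 := by
        intro x y
        by_cases h : b = y
        · have : ¬ b' = y := fun h' => hb (h.trans h'.symm)
          simp [this]
        · simp [h]
      simp [e1, hb]
  refine ⟨U * T, i0, ?_, fun ⟨a, b⟩ => ?_⟩
  · rw [transpose_mul, Matrix.mul_assoc, ← Matrix.mul_assoc T, hTT, Matrix.smul_mul,
      Matrix.one_mul, Matrix.mul_smul, hU, smul_smul]
    push_cast; rfl
  · rw [mul_apply, sum_eq_single (0, b)]
    · have h := (hsupp (0, b)).1 rfl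
      rw [hTd, hε]
      simp only [if_true, h, if_false, hH0]
      rcases hT (0, b) with h' | h' | h' <;> simp_all
    · rintro ⟨a', b'⟩ _ hne
      by_cases hb : b' = b
      · have : ¬ a' = 0 := fun h => hne (by rw [h, hb])
        have h0 : U i0 (a', b') = 0 := by
          by_contra h
          exact this ((hsupp (a', b')).2 h)
        simp [h0]
      · simp [hTd, hb]
    · simp

end Pool.Agent.H.MP_155e99_co
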