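import Mathlib
import Pool.Agent.H.MP_155e99_co.Frame

set_option autoImplicit false

namespace Pool.Agent.H.MP_155e99_co

open Finset Matrix

lemma two_squares (n : ℕ) (x y z : ℤ) (h0 : ¬ (x = 0 ∧ y = 0 ∧ z = 0))
    (h : x ^ 2 = (n : ℤ) * y ^ 2 - z ^ 2) : ∃ a b : ℕ, n = a ^ 2 + b ^ 2 := by
  have hy : y ≠ 0 := by
    rintro rfl
    apply h0
    refine ⟨by nlinarith [sq_nonneg x, sq_nonneg z], rfl, by nlinarith [sq_nonneg x, sq_nonneg z]⟩
  have hy' : y.natAbs ≠ 0 := Int.natAbs_ne_zero.2 hy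
  have h1 : ∃ a b : ℕ, n * y.natAbs ^ 2 = a ^ 2 + b ^ 2 := by
    refine ⟨x.natAbs, z.natAbs, ?_⟩
    zify
    simp only [sq_abs]
    linarith
  rw [Nat.eq_sq_add_sq_iff] at h1 ⊢
  intro q hq h4
  have hp : q.Prime := Nat.prime_of_mem_primeFactors hq
  have hn : n ≠ 0 := (Nat.mem_primeFactors.1 hq).2.2
  have : Fact q.Prime := ⟨hp⟩
  have h2 := h1 q (Nat.mem_primeFactors.2 ⟨hp, (Nat.dvd_of_mem_primeFactors hq).mul_right _,
    by positivity⟩) h4
  rw [padicValNat.mul hn (by positivity), padicValNat.pow, Nat.even_add] at h2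
  exact h2.2 (even_two_mul _)

lemma pow_between (m : ℕ) (hm : 1 ≤ m) : ∃ s : ℕ, m ≤ 2 ^ (s + 1) ∧ 2 ^ s ≤ m := by
  refine ⟨Nat.log 2 m, (Nat.lt_pow_succ_log_self (by norm_num) m).le,
    Nat.pow_log_le_self 2 (by omega)⟩

theorem frame_all (n : ℕ) (hev : Even n) (h2 : 2 ≤ n)
    (hb : ∃ x y z : ℤ, ¬ (x = 0 ∧ y = 0 ∧ z = 0) ∧
        x ^ 2 = (n : ℤ) * y ^ 2 + (-1 : ℤ) ^ ((n ^ 2 + n) / 2) * z ^ 2) :
    ∃ (κ : Type) (_ : Fintype κ) (_ : DecidableEq κ) (F : Matrix κ κ ℤ) (i0 : κ),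
      Fintype.card κ = n ∧ F * Fᵀ = (n : ℤ) • (1 : Matrix κ κ ℤ) ∧ ∀ j, F i0 j = 1 := by
  obtain ⟨k, rfl⟩ := hev
  rcases Nat.even_or_odd' k with ⟨m, rfl | rfl⟩
  · obtain ⟨s, hs1, hs2⟩ := pow_between m (by omega)
    obtain ⟨a, b, c, d, habcd⟩ := Nat.sum_four_squares m
    have hz : (a : ℤ) ^ 2 + b ^ 2 + c ^ 2 + d ^ 2 = m := by exact_mod_cast habcd
    obtain ⟨F, i0, hF, h1⟩ := frame 3 m (s + 2) (m - 2 ^ s)
      !![1, 1, 1, 1; 1, -1, 1, -1; 1, 1, -1, -1; 1, -1, -1, 1]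
      !![a, b, c, d; -b, a, -d, c; -c, d, a, -b; -d, -c, b, a]
      (by decide) (by decide)
      (by
        ext i j
        fin_cases i <;> fin_cases j <;>
          simp [mul_apply, Fin.sum_univ_succ] <;> linarith)
      (by omega) (by rw [pow_succ]; omega) (by rw [pow_succ, pow_succ]; omega)
    refine ⟨_, inferInstance, inferInstance, F, i0, by simp; ring, ?_, h1⟩
    rw [hF]; congr 2; ring
  · obtain ⟨x, y, z, h0, h⟩ := hb
    have hodd : Odd (((2 * m + 1 + (2 * m + 1)) ^ 2 + (2 * m + 1 + (2 * m + 1))) / 2) := by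
      have : (2 * m + 1 + (2 * m + 1)) ^ 2 + (2 * m + 1 + (2 * m + 1)) =
          2 * (2 * (4 * m ^ 2 + 5 * m + 1) + 1) := by ring
      rw [this, Nat.mul_div_cancel_left _ (by norm_num)]
      exact odd_two_mul_add_one _
    rw [hodd.neg_one_pow] at h
    obtain ⟨a, b, hab⟩ := two_squares _ x y z h0 (by linarith)
    have hab' : 2 * ((2 * m + 1 : ℕ) : ℤ) = (a : ℤ) ^ 2 + (b : ℤ) ^ 2 := by
      have : ((2 * m + 1 + (2 * m + 1) : ℕ) : ℤ) = ((a ^ 2 + b ^ 2 : ℕ) : ℤ) := by rw [← hab]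
      push_cast at this ⊢
      linarith
    obtain ⟨c, d, hcd⟩ : ∃ c d : ℤ, ((2 * m + 1 : ℕ) : ℤ) = c ^ 2 + d ^ 2 :=
      ⟨_, _, Int.sq_add_sq_of_two_mul_sq_add_sq hab'⟩
    obtain ⟨s, hs1, hs2⟩ := pow_between (2 * m + 1) (by omega)
    obtain ⟨F, i0, hF, h1⟩ := frame 1 (2 * m + 1) (s + 1) (2 * m + 1 - 2 ^ s)
      !![1, 1; 1, -1] !![c, d; -d, c] (by decide) (by decide)
      (by
        rw [hcd]
        ext i j
        fin_cases i <;> fin_cases j <;>
          simp [mul_apply, Fin.sum_univ_succ] <;> ring)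
      (by omega) hs1 (by rw [pow_succ]; omega)
    refine ⟨_, inferInstance, inferInstance, F, i0, by simp; ring, ?_, h1⟩
    rw [hF]; congr 2; ring

theorem main :
    ∀ n : ℕ, Even n → 2 ≤ n →
      (∃ x y z : ℤ, ¬ (x = 0 ∧ y = 0 ∧ z = 0) ∧
        x ^ 2 = (n : ℤ) * y ^ 2 + (-1 : ℤ) ^ ((n ^ 2 + n) / 2) * z ^ 2) →
      ∃ A : Matrix (Fin (n ^ 2 + n + 1)) (Fin (n ^ 2 + n + 1)) ℤ,
        (∀ j, 0 ≤ ∑ i, A i j) ∧
        A * A.transpose =
          (n : ℤ) • (1 : Matrix (Fin (n ^ 2 + n + 1)) (Fin (n ^ 2 + n + 1)) ℤ)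
            + Matrix.of (fun (_ : Fin (n ^ 2 + n + 1)) (_ : Fin (n ^ 2 + n + 1)) => (1 : ℤ)) ∧
        ∃ j₀ : Fin (n ^ 2 + n + 1), ∃ S : Finset (Fin (n ^ 2 + n + 1)),
          j₀ ∉ S ∧ S.card = n + 1 ∧
          (∀ i, A i j₀ = 0 ∨ A i j₀ = 1) ∧
          (Finset.univ.filter (fun i => A i j₀ = 0)).card = 1 ∧
          (∀ j ∈ S, (∀ i, A i j = 0 ∨ A i j = 1) ∧
            (Finset.univ.filter (fun i => A i j = 1)).card = n + 1) ∧
          (∀ j, j ≠ j₀ → j ∉ S → ∑ i, A i j = 0) := by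
  intro n hev h2 hb
  obtain ⟨κ, _, _, F, i0, hc, hF, h1⟩ := frame_all n hev h2 hb
  have hG := flip_frame F n (by omega) hF
  have hF' : ∀ j, ∑ i, F j i = if j = i0 then (n : ℤ) else 0 := by
    intro j
    have := congrFun (congrFun hF j) i0
    simpa [mul_apply, h1, one_apply] using this
  have hG' : ∀ i i', ∑ j, F j i * F j i' = if i = i' then (n : ℤ) else 0 := by
    intro i i'
    have := congrFun (congrFun hG i) i'
    simpa [mul_apply, one_apply] using this
  obtain ⟨E⟩ : Nonempty (Fin (n ^ 2 + n + 1) ≃ Option (Fin (n + 1) × κ)) :=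
    Fintype.card_eq.1 (by simp [hc]; ring)
  obtain ⟨B, b1, b2, b3, b4⟩ : ∃ B : Option (Fin (n + 1) × κ) → Option (Fin (n + 1) × κ) → ℤ,
      B none none = 0 ∧ (∀ g j, B none (some (g, j)) = if j = i0 then 1 else 0) ∧
      (∀ g i, B (some (g, i)) none = 1) ∧
      ∀ g i g' j, B (some (g, i)) (some (g', j)) = if g = g' then F j i else 0 :=
    ⟨fun x y => match x, y with
      | none, none => 0
      | none, some (_, j) => if j = i0 then 1 else 0
      | some _, none => 1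
      | some (g, i), some (g', j) => if g = g' then F j i else 0,
      rfl, fun _ _ => rfl, fun _ _ => rfl, fun _ _ _ _ => rfl⟩
  have col : ∀ g j, ∑ x, B x (some (g, j)) = if j = i0 then (n : ℤ) + 1 else 0 := by
    intro g j
    rw [Fintype.sum_option, Fintype.sum_prod_type, b2]
    simp only [b4]
    rw [sum_eq_single g]
    · simp only [if_true, hF']
      split_ifs <;> ring
    · intro g' _ h
      simp [h]
    · simp
  have gram : ∀ x y, ∑ z, B x z * B y z = (if x = y then (n : ℤ) else 0) + 1 := by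
    have mix : ∀ g i, ∑ z, B none z * B (some (g, i)) z = 1 := by
      intro g i
      rw [Fintype.sum_option, Fintype.sum_prod_type]
      simp [b1, b2, b4, h1]
    rintro (_ | ⟨g, i⟩) (_ | ⟨g', i'⟩)
    · rw [Fintype.sum_option, Fintype.sum_prod_type]
      simp [b1, b2]
    · simp [mix]
    · simp only [mul_comm (B (some (g, i)) _), mix]
      simp
    · rw [Fintype.sum_option, Fintype.sum_prod_type]
      simp only [b3, b4]
      rw [sum_eq_single g]
      · by_cases h : g = g'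
        · subst h
          simp [hG', add_comm]
        · have h' : ¬ g' = g := fun e => h e.symm
          simp [h, h']
      · intro a _ h
        simp [h.symm]
      · simp
  refine ⟨fun i j => B (E i) (E j), fun j => ?_, ?_, E.symm none,
    univ.map ⟨fun g : Fin (n + 1) => E.symm (some (g, i0)), fun g g' h => by simpa using h⟩,
    by simp, by simp, fun i => ?_, ?_, fun j hj => ?_, fun j hj1 hj2 => ?_⟩
  · rw [E.sum_comp (fun x => B x (E j))]
    rcases E j with _ | ⟨g, j⟩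
    · refine sum_nonneg fun x _ => ?_
      rcases x with _ | ⟨g, i⟩ <;> simp [b1, b3]
    · rw [col]; positivity
  · ext i j
    simp only [mul_apply, transpose_apply, Matrix.add_apply, Matrix.smul_apply, one_apply,
      of_apply, smul_eq_mul]
    rw [E.sum_comp (fun z => B (E i) z * B (E j) z), gram]
    simp
  · simp only [Equiv.apply_symm_apply]
    rcases E i with _ | ⟨g, i⟩ <;> simp [b1, b3]
  · simp only [Equiv.apply_symm_apply]
    rw [card_filter, E.sum_comp (fun x => if B x none = 0 then 1 else 0), Fintype.sum_option,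
      Fintype.sum_prod_type]
    simp [b1, b3]
  · obtain ⟨g, _, rfl⟩ := mem_map.1 hj
    simp only [Function.Embedding.coeFn_mk, Equiv.apply_symm_apply]
    refine ⟨fun i => ?_, ?_⟩
    · rcases E i with _ | ⟨g', i⟩
      · simp [b2]
      · rw [b4, h1]
        split_ifs <;> simp
    · rw [card_filter, E.sum_comp (fun x => if B x (some (g, i0)) = 1 then 1 else 0),
        Fintype.sum_option, Fintype.sum_prod_type]
      simp only [b2, b4, h1]
      rw [sum_eq_single g]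
      · simp [hc, add_comm]
      · intro a _ h
        simp [h]
      · simp
  · rw [E.sum_comp (fun x => B x (E j))]
    rcases h : E j with _ | ⟨g, j'⟩
    · exact absurd (by rw [← h]; simp) hj1
    · rw [col, if_neg]
      rintro rfl
      apply hj2
      refine mem_map.2 ⟨g, mem_univ _, ?_⟩
      simp [← h]

end Pool.Agent.H.MP_155e99_co
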